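import Mathlib

set_option autoImplicit false

/-! # Two vertices of equal degree joined by a path of length three -/

namespace Pool.Agent.Results.MP_b875bc_co.EqualDegreePath

open Finset SimpleGraph

variable {V : Type*} [Fintype V] [DecidableEq V] (G : SimpleGraph V) [DecidableRel G.Adj]

/-- `x₁` and `x₂` are joined by a path of length three. -/
def PathThree (x₁ x₂ : V) : Prop :=
  ∃ y₁ y₂ : V, x₁ ≠ y₁ ∧ x₁ ≠ y₂ ∧ x₁ ≠ x₂ ∧ y₁ ≠ y₂ ∧ y₁ ≠ x₂ ∧ y₂ ≠ x₂ ∧
    G.Adj x₁ y₁ ∧ G.Adj y₁ y₂ ∧ G.Adj y₂ x₂

/-- No two vertices of equal degree are joined by a path of length three. -/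
def Bad : Prop := ∀ x₁ x₂ : V, x₁ ≠ x₂ → G.degree x₁ = G.degree x₂ → ¬ PathThree G x₁ x₂

variable {G}

omit [DecidableEq V] in
theorem Bad.path (h : Bad G) {x₁ x₂ y₁ y₂ : V} (hne : x₁ ≠ x₂) (hd : G.degree x₁ = G.degree x₂)
    (h1 : G.Adj x₁ y₁) (h2 : G.Adj y₁ y₂) (h3 : G.Adj y₂ x₂) (h4 : y₁ ≠ x₂) (h5 : y₂ ≠ x₁) :
    False :=
  h x₁ x₂ hne hd ⟨y₁, y₂, h1.ne, h5.symm, hne, h2.ne, h4, h3.ne, h1, h2, h3⟩

/-- A neighbour `b` of `a` with a non adjacent twin `v`. -/
theorem Bad.nonadj (h : Bad G) {a b v : V} (hab : G.Adj a b) (hvb : v ≠ b) (hva : v ≠ a)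
    (hd : G.degree v = G.degree b) (hnadj : ¬ G.Adj b v) :
    G.degree a + G.degree b ≤ Fintype.card V := by
  have hdis : Disjoint (G.neighborFinset a) (G.neighborFinset v) := by
    rw [Finset.disjoint_left]
    intro z hz hz'
    rw [mem_neighborFinset] at hz hz'
    have hzb : z ≠ b := by
      rintro rfl
      exact hnadj hz'.symm
    exact h.path hvb.symm hd.symm hab.symm hz hz'.symm hva.symm hzb
  have := Finset.card_union_of_disjoint hdis
  rw [card_neighborFinset_eq_degree, card_neighborFinset_eq_degree, hd] at this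
  rw [← this]
  exact Finset.card_le_univ _

/-- A neighbour `b` of `a` with an adjacent twin `v`. -/
theorem Bad.adj (h : Bad G) {a b v : V} (hab : G.Adj a b) (hvb : v ≠ b) (hva : v ≠ a)
    (hd : G.degree v = G.degree b) (hbv : G.Adj b v) :
    G.degree a + G.degree b ≤ Fintype.card V + 1 ∧
      (G.degree a + G.degree b = Fintype.card V + 1 → G.Adj v a) := by
  have hdis : Disjoint (G.neighborFinset a) ((G.neighborFinset v).erase b) := by
    rw [Finset.disjoint_left]
    intro z hz hz'
    rw [mem_neighborFinset] at hz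
    rw [Finset.mem_erase, mem_neighborFinset] at hz'
    exact h.path hvb.symm hd.symm hab.symm hz hz'.2.symm hva.symm hz'.1
  have hcard := Finset.card_union_of_disjoint hdis
  have hb : b ∈ G.neighborFinset v := by
    rw [mem_neighborFinset]
    exact hbv.symm
  have h1 := Finset.card_erase_add_one hb
  rw [card_neighborFinset_eq_degree] at h1 hcard
  have h2 := Finset.card_le_univ (G.neighborFinset a ∪ (G.neighborFinset v).erase b)
  refine ⟨by omega, fun heq => ?_⟩
  have hfull : (G.neighborFinset a ∪ (G.neighborFinset v).erase b) = univ := by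
    rw [← Finset.card_eq_iff_eq_univ]
    omega
  have ha : a ∈ (G.neighborFinset a ∪ (G.neighborFinset v).erase b) := by
    rw [hfull]
    exact mem_univ _
  rw [Finset.mem_union, Finset.mem_erase, mem_neighborFinset, mem_neighborFinset] at ha
  rcases ha with ha | ha
  · exact absurd ha (G.loopless.irrefl a)
  · exact ha.2

/-- The set of the neighbours `b` of `a` which have a twin and satisfy
`deg a + deg b = |V| + 1` has at most two elements. -/
theorem Bad.special (h : Bad G) (a : V) :
    ((G.neighborFinset a).filter (fun b => G.degree a + G.degree b = Fintype.card V + 1 ∧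
      ∃ v, v ≠ b ∧ G.degree v = G.degree b)).card ≤ 2 := by
  by_contra hcon
  push Not at hcon
  obtain ⟨b₁, h1, b₂, h2, b₃, h3, h12, h13, h23⟩ := Finset.two_lt_card.1 hcon
  simp only [Finset.mem_filter, mem_neighborFinset] at h1 h2 h3
  have key : ∀ {x y : V}, G.Adj a x → G.Adj a y → x ≠ y → G.degree y = G.degree x →
      G.degree a + G.degree x = Fintype.card V + 1 → G.Adj x y := by
    intro x y hx hy hxy hd he
    by_contra hn
    have := h.nonadj hx hxy.symm hy.ne' hd hn
    omega
  have e12 : G.degree b₂ = G.degree b₁ := by omega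
  have e13 : G.degree b₃ = G.degree b₁ := by omega
  have e23 : G.degree b₃ = G.degree b₂ := by omega
  have a23 := key h2.1 h3.1 h23 e23 h2.2.1
  exact h.path h12 e12.symm h1.1.symm h3.1 a23.symm h2.1.ne h13.symm

/-- The sum of distinct positive integers. -/
theorem sum_distinct {ι : Type*} [DecidableEq ι] (s : Finset ι) (f : ι → ℕ)
    (hf : Set.InjOn f s) (hpos : ∀ i ∈ s, 0 < f i) :
    s.card * (s.card + 1) ≤ 2 * ∑ i ∈ s, f i := by
  induction hk : s.card generalizing s with
  | zero => simp
  | succ k ih =>
    have hne : s.Nonempty := by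
      rw [← Finset.card_pos]
      omega
    obtain ⟨m, hm, hmax⟩ := Finset.exists_max_image s f hne
    have h1 : (s.erase m).card = k := by
      rw [Finset.card_erase_of_mem hm, hk]
      rfl
    have h2 := ih (s.erase m) (hf.mono (by
      intro x hx
      exact Finset.mem_of_mem_erase hx)) (fun i hi => hpos i (Finset.mem_of_mem_erase hi)) h1
    have h3 : k + 1 ≤ f m := by
      have himg : s.image f ⊆ Finset.Icc 1 (f m) := by
        intro x hx
        obtain ⟨i, hi, rfl⟩ := Finset.mem_image.1 hx
        rw [Finset.mem_Icc]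
        exact ⟨hpos i hi, hmax i hi⟩
      have := Finset.card_le_card himg
      rw [Finset.card_image_of_injOn hf, hk, Nat.card_Icc] at this
      omega
    rw [← Finset.add_sum_erase s f hm]
    nlinarith

variable (G) in
/-- The degree sum split at a vertex. -/
theorem sum_split (a : V) : ∑ v, G.degree v =
    G.degree a + ∑ b ∈ G.neighborFinset a, G.degree b +
      ∑ c ∈ (univ \ (insert a (G.neighborFinset a))), G.degree c := by
  have ha : a ∉ G.neighborFinset a := by simp
  have h1 := Finset.sum_insert (f := fun v => G.degree v) ha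
  rw [← h1, add_comm, Finset.sum_sdiff (Finset.subset_univ _)]

variable (G) in
theorem card_rest (a : V) :
    (univ \ (insert a (G.neighborFinset a))).card + G.degree a + 1 = Fintype.card V := by
  have ha : a ∉ G.neighborFinset a := by simp
  have := Finset.card_sdiff_add_card_eq_card (Finset.subset_univ (insert a (G.neighborFinset a)))
  rw [Finset.card_insert_of_notMem ha, card_neighborFinset_eq_degree, Finset.card_univ] at this
  omega

/-- A vertex of largest degree has no twin which is not adjacent to it. -/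
theorem Bad.maxNonadj (h : Bad G) {n : ℕ} (hV : Fintype.card V = 2 * n + 1)
    (hE : ∑ v, G.degree v = 2 * (n ^ 2 + n + 1)) {a v : V} (hmax : ∀ c, G.degree c ≤ G.degree a)
    (hva : v ≠ a) (hd : G.degree v = G.degree a) : G.Adj a v := by
  by_contra hnadj
  have h1 : ∀ b ∈ G.neighborFinset a, G.degree b ≤ Fintype.card V - G.degree a := by
    intro b hb
    rw [mem_neighborFinset] at hb
    have hvb : v ≠ b := by
      rintro rfl
      exact hnadj hb
    have := h.nonadj hb.symm hva hvb hd hnadj
    omega
  have h2 := Finset.sum_le_card_nsmul _ _ _ h1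
  have h3 := Finset.sum_le_card_nsmul (univ \ (insert a (G.neighborFinset a)))
    (fun c => G.degree c) (G.degree a) (fun c _ => hmax c)
  have h4 := card_rest G a
  have h5 := sum_split G a
  rw [card_neighborFinset_eq_degree, smul_eq_mul] at h2
  rw [smul_eq_mul] at h3
  have h6 : G.degree a < Fintype.card V := G.degree_lt_card_verts a
  obtain ⟨k, hk⟩ : ∃ k, Fintype.card V = G.degree a + k := ⟨_, (Nat.add_sub_cancel' h6.le).symm⟩
  rw [hk, Nat.add_sub_cancel_left] at h2
  have h7 : (univ \ (insert a (G.neighborFinset a))).card + 1 = k := by omega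
  generalize (univ \ (insert a (G.neighborFinset a))).card = ρ at h3 h7
  generalize G.degree a = D at *
  rw [hE] at h5
  subst h7
  have hV' : D + (ρ + 1) = 2 * n + 1 := by omega
  have : 2 * (n ^ 2 + n + 1) ≤ D + D * (ρ + 1) + ρ * D := by linarith
  have h8 : (2 * (n : ℤ) + 1) = D + (ρ + 1) := by exact_mod_cast hV'.symm
  have h9 : 2 * ((n : ℤ) ^ 2 + n + 1) ≤ D + D * (ρ + 1) + ρ * D := by exact_mod_cast this
  nlinarith [sq_nonneg ((D : ℤ) - (ρ + 1))]

omit [DecidableEq V] in
/-- The largest degree is at least `n + 1`. -/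
theorem large {n : ℕ} (hV : Fintype.card V = 2 * n + 1)
    (hE : ∑ v, G.degree v = 2 * (n ^ 2 + n + 1)) {a : V} (hmax : ∀ c, G.degree c ≤ G.degree a) :
    n + 1 ≤ G.degree a := by
  by_contra hcon
  have h1 := Finset.sum_le_card_nsmul (univ : Finset V) (fun c => G.degree c) n
    (fun c _ => (hmax c).trans (by omega))
  rw [hE, Finset.card_univ, hV, smul_eq_mul] at h1
  nlinarith

theorem consec (x : ℤ) : 0 ≤ x * (x - 1) := by
  rcases le_or_gt x 0 with hh | hh
  · nlinarith
  · have : 0 ≤ x - 1 := by omega
    positivity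

/-- Case 1: the vertex of largest degree has no twin. -/
theorem Bad.case1 (h : Bad G) {n : ℕ} (hn : 2 ≤ n) (hV : Fintype.card V = 2 * n + 1)
    (hE : ∑ v, G.degree v = 2 * (n ^ 2 + n + 1)) {a : V} (hmax : ∀ c, G.degree c ≤ G.degree a)
    (hU : ∀ v, v ≠ a → G.degree v ≠ G.degree a) : False := by
  classical
  set D := G.degree a with hD
  set N := Fintype.card V with hN
  have hDN : D < N := G.degree_lt_card_verts a
  set R := (G.neighborFinset a).filter (fun b => ∀ v, v ≠ b → G.degree v ≠ G.degree b) with hR
  set T := (G.neighborFinset a).filter (fun b => ¬ ∀ v, v ≠ b → G.degree v ≠ G.degree b) with hT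
  have hcard : R.card + T.card = D := by
    rw [hR, hT, Finset.card_filter_add_card_filter_not, card_neighborFinset_eq_degree]
  have hlt : ∀ b, b ≠ a → G.degree b < D := fun b hb => lt_of_le_of_ne (hmax b) (hU b hb)
  -- the unique ones
  have hR1 : R.card * (R.card + 1) ≤ 2 * ∑ b ∈ R, (D - G.degree b) := by
    apply sum_distinct
    · intro x hx y hy hxy
      simp only at hxy
      by_contra hne
      have hx' := Finset.mem_coe.1 hx
      have hy' := Finset.mem_coe.1 hy
      rw [hR, Finset.mem_filter, mem_neighborFinset] at hx' hy'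
      have e1 := hlt x hx'.1.ne'
      have e2 := hlt y hy'.1.ne'
      exact hx'.2 y (Ne.symm hne) (by omega)
    · intro b hb
      rw [hR, Finset.mem_filter, mem_neighborFinset] at hb
      have := hlt b hb.1.ne'
      omega
  have hR2 : ∑ b ∈ R, G.degree b + ∑ b ∈ R, (D - G.degree b) = R.card * D := by
    rw [← Finset.sum_add_distrib, ← smul_eq_mul, ← Finset.sum_const]
    apply Finset.sum_congr rfl
    intro b _
    have := hmax b
    omega
  -- the ones with a twin
  have hT1 : ∑ b ∈ T, G.degree b ≤ T.card * (N - D) + 2 := by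
    have e1 : ∀ b ∈ T, G.degree b ≤ (N - D) + (if D + G.degree b = N + 1 ∧
        ∃ v, v ≠ b ∧ G.degree v = G.degree b then 1 else 0) := by
      intro b hb
      rw [hT, Finset.mem_filter, mem_neighborFinset] at hb
      obtain ⟨hab, htw⟩ := hb
      push Not at htw
      obtain ⟨v, hvb, hdv⟩ := htw
      have hva : v ≠ a := by
        rintro rfl
        exact hU b hab.ne' hdv.symm
      by_cases hadj : G.Adj b v
      · have := (h.adj hab hvb hva hdv hadj).1
        split_ifs with hc
        · omega
        · have : ¬ D + G.degree b = N + 1 := fun hc' => hc ⟨hc', v, hvb, hdv⟩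
          omega
      · have := h.nonadj hab hvb hva hdv hadj
        omega
    refine (Finset.sum_le_sum e1).trans ?_
    rw [Finset.sum_add_distrib, Finset.sum_const, smul_eq_mul, ← Finset.card_filter]
    have e2 := h.special a
    have e3 : (T.filter (fun b => D + G.degree b = N + 1 ∧
        ∃ v, v ≠ b ∧ G.degree v = G.degree b)).card ≤ 2 := by
      refine le_trans (Finset.card_le_card ?_) e2
      intro b hb
      rw [Finset.mem_filter] at hb ⊢
      exact ⟨(Finset.mem_filter.1 hb.1).1, hb.2⟩
    omega
  -- the others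
  have hrest := Finset.sum_le_card_nsmul (univ \ (insert a (G.neighborFinset a)))
    (fun c => G.degree c) (D - 1) (fun c hc => by
      rw [Finset.mem_sdiff, Finset.mem_insert, not_or] at hc
      have := hlt c hc.2.1
      omega)
  have h4 := card_rest G a
  have h5 := sum_split G a
  have h6 : ∑ b ∈ G.neighborFinset a, G.degree b = ∑ b ∈ R, G.degree b + ∑ b ∈ T, G.degree b := by
    rw [hR, hT, Finset.sum_filter_add_sum_filter_not]
  have hlarge := large hV hE hmax
  rw [smul_eq_mul] at hrest
  rw [hE, h6] at h5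
  generalize (univ \ (insert a (G.neighborFinset a))).card = ρ at hrest h4
  generalize ∑ c ∈ univ \ insert a (G.neighborFinset a), G.degree c = S at hrest h5
  generalize ∑ b ∈ R, (D - G.degree b) = Q at hR1 hR2
  generalize ∑ b ∈ R, G.degree b = S1 at hR2 h5
  generalize ∑ b ∈ T, G.degree b = S2 at hT1 h5
  generalize R.card = r at *
  generalize T.card = t at *
  rw [← hD] at h4 h5 hlarge
  clear_value D N
  obtain ⟨k, rfl⟩ : ∃ k, N = D + k := ⟨_, (Nat.add_sub_cancel' hDN.le).symm⟩
  rw [Nat.add_sub_cancel_left] at hT1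
  obtain ⟨D', rfl⟩ : ∃ D', D = D' + 1 := ⟨D - 1, by omega⟩
  rw [Nat.add_sub_cancel] at hrest
  have z1 : (r : ℤ) * (r + 1) ≤ 2 * Q := by exact_mod_cast hR1
  have z2 : (S1 : ℤ) + Q = r * (D' + 1) := by exact_mod_cast hR2
  have z3 : (S2 : ℤ) ≤ t * k + 2 := by exact_mod_cast hT1
  have z4 : (S : ℤ) ≤ ρ * D' := by exact_mod_cast hrest
  have z5 : 2 * ((n : ℤ) ^ 2 + n + 1) = D' + 1 + (S1 + S2) + S := by exact_mod_cast h5
  have z6 : (r : ℤ) + t = D' + 1 := by exact_mod_cast hcard
  have z7 : (ρ : ℤ) = k - 1 := by
    have : ρ + 1 = k := by omega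
    push_cast [← this]
    ring
  have z8 : (D' : ℤ) + 1 + k = 2 * n + 1 := by exact_mod_cast hV
  have key : 0 ≤ ((D' : ℤ) + 1 - k - r) * ((D' : ℤ) + 1 - k - r - 1) := consec _
  have z9 : (2 : ℤ) ≤ n := by exact_mod_cast hn
  have e1 : (t : ℤ) = D' + 1 - r := by linarith
  have e2 : (k : ℤ) = 2 * n - D' := by linarith
  rw [z7] at z4
  rw [e1] at z3
  rw [e2] at z3 z4 key
  linarith

/-- Case 2: the vertex of largest degree has a twin. -/
theorem Bad.case2 (h : Bad G) {n : ℕ} (hn : 2 ≤ n) (hV : Fintype.card V = 2 * n + 1)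
    (hE : ∑ v, G.degree v = 2 * (n ^ 2 + n + 1)) {a v : V} (hmax : ∀ c, G.degree c ≤ G.degree a)
    (hva : v ≠ a) (hd : G.degree v = G.degree a) : False := by
  classical
  have hav := h.maxNonadj hV hE hmax hva hd
  have hlarge := large hV hE hmax
  by_cases hw : ∃ w, w ≠ a ∧ w ≠ v ∧ G.degree w = G.degree a
  · -- three vertices of largest degree
    obtain ⟨w, hwa, hwv, hdw⟩ := hw
    have haw := h.maxNonadj hV hE hmax hwa hdw
    have hvw : G.Adj v w := by
      apply h.maxNonadj hV hE (fun c => hd ▸ hmax c) hwv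
      rw [hd, hdw]
    -- no vertex outside of the triangle is adjacent to two of its vertices
    have q1 : ∀ z, z ≠ a → z ≠ v → z ≠ w → G.Adj a z → G.Adj v z → False := by
      intro z _ _ hzw h1 h2
      exact h.path hwa.symm hdw.symm h1 h2.symm hvw hzw hva
    have q2 : ∀ z, z ≠ a → z ≠ v → z ≠ w → G.Adj a z → G.Adj w z → False := by
      intro z _ hzv _ h1 h2
      exact h.path hva.symm hd.symm h1 h2.symm hvw.symm hzv hwa
    have q3 : ∀ z, z ≠ a → z ≠ v → z ≠ w → G.Adj v z → G.Adj w z → False := by
      intro z hza _ _ h1 h2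
      exact h.path hva hd h1 h2.symm haw.symm hza hwv
    set A := ((G.neighborFinset a).erase v).erase w with hA
    set B := ((G.neighborFinset v).erase a).erase w with hB
    set C := ((G.neighborFinset w).erase a).erase v with hC
    have m1 : A.card + 2 = G.degree a := by
      have e1 : w ∈ (G.neighborFinset a).erase v := by simp [hwv, haw]
      have e2 : v ∈ G.neighborFinset a := by simp [hav]
      have e3 := Finset.card_erase_add_one e1
      have e4 := Finset.card_erase_add_one e2
      rw [card_neighborFinset_eq_degree] at e4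
      rw [hA]
      omega
    have m2 : B.card + 2 = G.degree a := by
      have e1 : w ∈ (G.neighborFinset v).erase a := by simp [hwa, hvw]
      have e2 : a ∈ G.neighborFinset v := by simp [hav.symm]
      have e3 := Finset.card_erase_add_one e1
      have e4 := Finset.card_erase_add_one e2
      rw [card_neighborFinset_eq_degree] at e4
      rw [hB]
      omega
    have m3 : C.card + 2 = G.degree a := by
      have e1 : v ∈ (G.neighborFinset w).erase a := by simp [hva, hvw.symm]
      have e2 : a ∈ G.neighborFinset w := by simp [haw.symm]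
      have e3 := Finset.card_erase_add_one e1
      have e4 := Finset.card_erase_add_one e2
      rw [card_neighborFinset_eq_degree] at e4
      rw [hC]
      omega
    have d1 : Disjoint A B := by
      rw [Finset.disjoint_left]
      intro z hz hz'
      simp only [hA, hB, Finset.mem_erase, mem_neighborFinset] at hz hz'
      exact q1 z hz'.2.1 hz.2.1 hz.1 hz.2.2 hz'.2.2
    have d2 : Disjoint (A ∪ B) C := by
      rw [Finset.disjoint_left]
      intro z hz hz'
      simp only [hA, hB, hC, Finset.mem_union, Finset.mem_erase, mem_neighborFinset] at hz hz'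
      rcases hz with hz | hz
      · exact q2 z hz'.2.1 hz.2.1 hz.1 hz.2.2 hz'.2.2
      · exact q3 z hz.2.1 hz'.1 hz.1 hz.2.2 hz'.2.2
    have d3 : Disjoint (A ∪ B ∪ C) {a, v, w} := by
      rw [Finset.disjoint_left]
      intro z hz hz'
      simp only [hA, hB, hC, Finset.mem_union, Finset.mem_erase, mem_neighborFinset,
        Finset.mem_insert, Finset.mem_singleton] at hz hz'
      rcases hz' with rfl | rfl | rfl
      · rcases hz with (hz | hz) | hz
        · exact G.loopless.irrefl _ hz.2.2
        · exact hz.2.1 rfl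
        · exact hz.2.1 rfl
      · rcases hz with (hz | hz) | hz
        · exact hz.2.1 rfl
        · exact G.loopless.irrefl _ hz.2.2
        · exact hz.1 rfl
      · rcases hz with (hz | hz) | hz
        · exact hz.1 rfl
        · exact hz.1 rfl
        · exact G.loopless.irrefl _ hz.2.2
    have m4 : ({a, v, w} : Finset V).card = 3 :=
      Finset.card_eq_three.2 ⟨a, v, w, hva.symm, hwa.symm, hwv.symm, rfl⟩
    have m5 := Finset.card_le_univ (A ∪ B ∪ C ∪ {a, v, w})
    rw [Finset.card_union_of_disjoint d3, Finset.card_union_of_disjoint d2,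
      Finset.card_union_of_disjoint d1, m4] at m5
    omega
  · -- exactly two vertices of largest degree
    push Not at hw
    set D := G.degree a with hD
    set N := Fintype.card V with hN
    have hDN : D < N := G.degree_lt_card_verts a
    set A := (G.neighborFinset a).erase v with hA
    have hvN : v ∈ G.neighborFinset a := by simp [hav]
    have hA1 : A.card + 1 = D := by
      have := Finset.card_erase_add_one hvN
      rw [card_neighborFinset_eq_degree] at this
      exact this
    have hA2 : ∑ b ∈ G.neighborFinset a, G.degree b = D + ∑ b ∈ A, G.degree b := by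
      rw [hA, Finset.add_sum_erase _ _ hvN |>.symm, hd]
    have hA3 : ∑ b ∈ A, G.degree b ≤ A.card * (N - D) + 1 := by
      have e1 : ∀ b ∈ A, G.degree b ≤ (N - D) + (if D + G.degree b = N + 1 then 1 else 0) := by
        intro b hb
        rw [hA, Finset.mem_erase, mem_neighborFinset] at hb
        have := (h.adj hb.2.symm hva hb.1.symm hd hav).1
        split_ifs with hc
        · omega
        · omega
      refine (Finset.sum_le_sum e1).trans ?_
      rw [Finset.sum_add_distrib, Finset.sum_const, smul_eq_mul, ← Finset.card_filter]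
      have e3 : (A.filter (fun b => D + G.degree b = N + 1)).card ≤ 1 := by
        rw [Finset.card_le_one]
        intro b hb c hc
        rw [hA, Finset.mem_filter, Finset.mem_erase, mem_neighborFinset] at hb hc
        by_contra hne
        have f1 := (h.adj hb.1.2.symm hva hb.1.1.symm hd hav).2 (by omega)
        have f2 := (h.adj hc.1.2.symm hva hc.1.1.symm hd hav).2 (by omega)
        exact h.path hne (by omega) hb.1.2.symm hav f2 hc.1.2.ne hb.1.1.symm
      omega
    have hrest := Finset.sum_le_card_nsmul (univ \ (insert a (G.neighborFinset a)))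
      (fun c => G.degree c) (D - 1) (fun c hc => by
        rw [Finset.mem_sdiff, Finset.mem_insert, not_or, mem_neighborFinset] at hc
        have hcv : c ≠ v := by
          rintro rfl
          exact hc.2.2 hav
        have e1 := hw c hc.2.1 hcv
        have e2 := hmax c
        omega)
    have h4 := card_rest G a
    have h5 := sum_split G a
    rw [smul_eq_mul] at hrest
    rw [hE, hA2] at h5
    generalize (univ \ (insert a (G.neighborFinset a))).card = ρ at hrest h4
    generalize ∑ c ∈ univ \ insert a (G.neighborFinset a), G.degree c = S at hrest h5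
    generalize ∑ b ∈ A, G.degree b = S1 at hA3 h5
    generalize A.card = t at *
    rw [← hD] at h5
    clear_value D N
    obtain ⟨k, rfl⟩ : ∃ k, N = D + k := ⟨_, (Nat.add_sub_cancel' hDN.le).symm⟩
    rw [Nat.add_sub_cancel_left] at hA3
    subst hA1
    rw [Nat.add_sub_cancel] at hrest
    have z3 : (S1 : ℤ) ≤ t * k + 1 := by exact_mod_cast hA3
    have z4 : (S : ℤ) ≤ ρ * t := by exact_mod_cast hrest
    have z5 : 2 * ((n : ℤ) ^ 2 + n + 1) = t + 1 + (t + 1 + S1) + S := by exact_mod_cast h5
    have z7 : (ρ : ℤ) = k - 1 := by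
      have : ρ + 1 = k := by omega
      push_cast [← this]
      ring
    have z8 : (t : ℤ) + 1 + k = 2 * n + 1 := by exact_mod_cast hV
    have key : 0 ≤ ((t : ℤ) + 1 - k - 1) * ((t : ℤ) + 1 - k - 1 - 1) := consec _
    have z9 : (2 : ℤ) ≤ n := by exact_mod_cast hn
    have e2 : (k : ℤ) = 2 * n - t := by linarith
    rw [z7] at z4
    rw [e2] at z3 z4 key
    linarith

/-- **The theorem of this file (full answer to Q1).** For every `n ≥ 2`, every graph with
`2n + 1` vertices and `n² + n + 1` edges contains two distinct vertices of equal degree which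
are joined by a path of length three. -/
theorem result (n : ℕ) (hn : 2 ≤ n) (W : Type) [Fintype W] (H : SimpleGraph W)
    (hW : Nat.card W = 2 * n + 1) (hH : H.edgeSet.ncard = n ^ 2 + n + 1) :
    ∃ x₁ x₂ y₁ y₂ : W, x₁ ≠ y₁ ∧ x₁ ≠ y₂ ∧ x₁ ≠ x₂ ∧ y₁ ≠ y₂ ∧ y₁ ≠ x₂ ∧ y₂ ≠ x₂ ∧
      H.Adj x₁ y₁ ∧ H.Adj y₁ y₂ ∧ H.Adj y₂ x₂ ∧
      (H.neighborSet x₁).ncard = (H.neighborSet x₂).ncard := by
  classical
  by_contra hcon
  have hbad : Bad H := by
    intro x₁ x₂ _ hd hP
    obtain ⟨y₁, y₂, h1, h2, h3, h4, h5, h6, h7, h8, h9⟩ := hP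
    apply hcon
    refine ⟨x₁, x₂, y₁, y₂, h1, h2, h3, h4, h5, h6, h7, h8, h9, ?_⟩
    have e : ∀ x, (H.neighborSet x).ncard = H.degree x := by
      intro x
      rw [← card_neighborSet_eq_degree, Set.ncard_eq_toFinset_card', Set.toFinset_card]
    rw [e, e, hd]
  rw [Nat.card_eq_fintype_card] at hW
  have hE : ∑ v, H.degree v = 2 * (n ^ 2 + n + 1) := by
    rw [sum_degrees_eq_twice_card_edges, ← hH, Set.ncard_eq_toFinset_card']
    rfl
  have hne : (univ : Finset W).Nonempty := by
    rw [← Finset.card_pos, Finset.card_univ, hW]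
    omega
  obtain ⟨a, -, ha⟩ := Finset.exists_max_image univ (fun v => H.degree v) hne
  have hmax : ∀ c, H.degree c ≤ H.degree a := fun c => ha c (mem_univ c)
  by_cases hU : ∀ v, v ≠ a → H.degree v ≠ H.degree a
  · exact hbad.case1 hn hW hE hmax hU
  · push Not at hU
    obtain ⟨v, hva, hd⟩ := hU
    exact hbad.case2 hn hW hE hmax hva hd

end Pool.Agent.Results.MP_b875bc_co.EqualDegreePath
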